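import Mathlib
import Pool.Agent.W5h13.FT5

/-!
# Five-torsion in the top degree `(n - 6) / 2` of the matching complex `M_n`, all even `n ≥ 16`

For every even `n ≥ 16` the group `H̃_{(n-6)/2}(M_n; ℤ)` has an element of order `5`.

* `Pool.Agent.W5h13.FT.cert14`: an explicit certificate for `n = 14`. Let `(S₃ ≀ S₄) × S₂` act on
  `14` points (four blocks of three points and one block of two points), with the character `χ`
  which is the sign on the four factors `S₃` and trivial on `S₄` and `S₂`, and let
  `N x = ∑ χ(g) g x`. For explicit matchings `R` with five edges and `T_i` with six edges,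
  `∂ N R = 0` and `5 N R = ∂ N (-4 T₃ + 2 T₂ - 2 T₁ - T₅)`, and there is an explicit cocycle
  modulo `5` which does not vanish on `N R`.
* `Pool.Agent.W5h13.FT.Cert.step`: the split exact edge deletion sequence carries such a
  certificate from `M_n` in degree `d` to `M_{n+2}` in degree `d + 1`.
-/

set_option autoImplicit false

namespace Pool.Agent.Results.MP_87ad45_co.FiveTorsion

open Pool.Agent.H742R3.Mat

/-- For every even `n ≥ 16`, the reduced homology group with integer coefficients of the matching
complex `M_n` in degree `d = (n - 6) / 2` has an element of order `5`. The chain groups use the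
orientation given by an arbitrary linear order of the vertices (edges of `K_n`). -/
theorem result (n : ℕ) (hn : Even n) (h16 : 16 ≤ n) (d : ℤ) (hd : 2 * d = (n : ℤ) - 6)
    [lo : LinearOrder (Finset (Fin n))] : ∃ x : Homology (Mn n) d, addOrderOf x = 5 := by
  obtain ⟨m, rfl⟩ := hn
  obtain ⟨k, rfl⟩ : ∃ k, m = k + 8 := ⟨m - 8, by omega⟩
  have h2 : k + 8 + (k + 8) = 2 * k + 16 := by ring
  have hc : Pool.Agent.W5h13.FT.Cert (Fin (k + 8 + (k + 8))) (k + 6) := by
    rw [h2]
    exact Pool.Agent.W5h13.FT.cert_all k
  have hd' : d = ((k + 6 : ℕ) : ℤ) - 1 := by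
    push_cast at hd ⊢
    omega
  subst hd'
  exact hc.order

end Pool.Agent.Results.MP_87ad45_co.FiveTorsion
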